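import Pool.Agent.Helper82.RD.Defs

/-!
# Project RD, module CNT: two counting bounds
-/

set_option autoImplicit false

open Finset MP86d903

namespace Pool.Agent.Helper82.RD

variable {ι V : Type} [DecidableEq ι] [Fintype ι] [Fintype V] [DecidableEq V]
  {vs ng : ι → Finset V} {q : ℕ}

theorem mCNT (h3 : ∀ c, (vs c).card = 3) {A : Finset V} (hAP : AP vs A) :
    (∀ Y : Finset V, (univ.filter (fun x => x ∉ A ∧ ¬ Disjoint (att vs A x) Y)).card ≤ 2 * Y.card) ∧
    ∀ (D : ℕ) (J : Finset V), (∀ x ∈ J, (univ.filter (fun c => x ∈ vs c)).card ≤ D) →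
      ((univ.filter (fun c => ¬ Disjoint (vs c) J)).biUnion vs).card ≤ 3 * (D * J.card) := by
  constructor
  · intro Y
    have h1 : univ.filter (fun x => x ∉ A ∧ ¬ Disjoint (att vs A x) Y) ⊆
        (Y \ A).biUnion (att vs A) := by
      intro x hx
      obtain ⟨hxA, hd⟩ := (mem_filter.1 hx).2
      obtain ⟨y, hy1, hy2⟩ := not_disjoint_iff.1 hd
      have hyA : y ∉ A := disjoint_left.1 (hAP.dis x hxA) hy1
      rw [mem_biUnion]
      refine ⟨y, mem_sdiff.2 ⟨hy2, hyA⟩, ?_⟩
      rw [hAP.eqv x y hxA hy1]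
      exact hAP.mem x hxA
    have h2 : ((Y \ A).biUnion (att vs A)).card ≤ (Y \ A).card * 2 :=
      card_biUnion_le_card_mul _ _ _ fun y hy => hAP.two y (mem_sdiff.1 hy).2
    have h4 : (Y \ A).card ≤ Y.card := card_le_card sdiff_subset
    have h5 := card_le_card h1
    omega
  · intro D J hD
    have h1 : univ.filter (fun c => ¬ Disjoint (vs c) J) ⊆
        J.biUnion (fun x => univ.filter (fun c => x ∈ vs c)) := by
      intro c hc
      obtain ⟨x, hx1, hx2⟩ := not_disjoint_iff.1 (mem_filter.1 hc).2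
      exact mem_biUnion.2 ⟨x, hx2, mem_filter.2 ⟨mem_univ c, hx1⟩⟩
    have h2 : (J.biUnion (fun x => univ.filter (fun c => x ∈ vs c))).card ≤ J.card * D :=
      card_biUnion_le_card_mul _ _ _ hD
    have h4 : ((univ.filter (fun c => ¬ Disjoint (vs c) J)).biUnion vs).card ≤
        (univ.filter (fun c => ¬ Disjoint (vs c) J)).card * 3 :=
      card_biUnion_le_card_mul _ _ _ fun c _ => (h3 c).le
    have h5 := card_le_card h1
    calc ((univ.filter (fun c => ¬ Disjoint (vs c) J)).biUnion vs).card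
        ≤ (univ.filter (fun c => ¬ Disjoint (vs c) J)).card * 3 := h4
      _ ≤ (J.card * D) * 3 := Nat.mul_le_mul_right 3 (h5.trans h2)
      _ = 3 * (D * J.card) := by ring

end Pool.Agent.Helper82.RD
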